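import Mathlib

/-!
# Extensions of Baire groups by compact normal subgroups are Baire

No separation axiom is assumed.
-/

namespace Pool.Agent.Results.MP_0c5bac_gt.CompactKernel

open Set Topology

/-- A maximal disjoint subfamily of a family `P` of sets. -/
theorem exists_maximal_disjoint {B : Type*} (P : Set (Set B)) :
    ∃ W : Set (Set B), W ⊆ P ∧ W.PairwiseDisjoint id ∧
      ∀ w ∈ P, w.Nonempty → ¬ Disjoint w (⋃₀ W) := by
  obtain ⟨W, hW⟩ := zorn_subset {W : Set (Set B) | W ⊆ P ∧ W.PairwiseDisjoint id} (by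
    intro c hc hchain
    refine ⟨⋃₀ c, ⟨sUnion_subset fun s hs => (hc hs).1, ?_⟩, fun s hs => subset_sUnion_of_mem hs⟩
    intro a ha b hb hab
    obtain ⟨s, hs, has⟩ := ha
    obtain ⟨t, ht, hbt⟩ := hb
    rcases hchain.total hs ht with h | h
    · exact (hc ht).2 (h has) hbt hab
    · exact (hc hs).2 has (h hbt) hab)
  refine ⟨W, hW.prop.1, hW.prop.2, ?_⟩
  intro w hw hwn hdis
  have h1 : insert w W ∈ {W : Set (Set B) | W ⊆ P ∧ W.PairwiseDisjoint id} := by
    refine ⟨insert_subset hw hW.prop.1, ?_⟩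
    refine hW.prop.2.insert ?_
    intro j hj _
    exact hdis.mono_right (subset_sUnion_of_mem hj)
  have h2 : w ∈ W := hW.le_of_ge h1 (subset_insert w W) (mem_insert w W)
  obtain ⟨x, hx⟩ := hwn
  exact (Set.disjoint_left.mp hdis) hx ⟨w, h2, hx⟩

/-- A stage of the construction: an open set `E` which is dense in `O'`, and for each `z ∈ E` an
open set `V z` of the total space meeting the fibre over `z`, locally constant in `z`. -/
structure Stage {X B : Type*} [TopologicalSpace X] [TopologicalSpace B] (π : X → B)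
    (O' : Set B) where
  E : Set B
  V : B → Set X
  isOpen_E : IsOpen E
  dense_E : O' ⊆ closure E
  isOpen_V : ∀ z ∈ E, IsOpen (V z)
  mem_image : ∀ z ∈ E, z ∈ π '' (V z)
  loc_const : ∀ z ∈ E, ∃ W, IsOpen W ∧ z ∈ W ∧ W ⊆ E ∧ ∀ z' ∈ W, V z' = V z

theorem step {X B : Type*} [TopologicalSpace X] [RegularSpace X] [TopologicalSpace B] {π : X → B}
    (hc : Continuous π) (ho : IsOpenMap π) {O' : Set B} (s : Stage π O') {D : Set X}
    (hD : IsOpen D) (hDd : Dense D) :
    ∃ s' : Stage π O', s'.E ⊆ s.E ∧ ∀ z ∈ s'.E, closure (s'.V z) ⊆ s.V z ∩ D := by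
  classical
  set P : Set (Set B) := {W | IsOpen W ∧ W ⊆ s.E ∧ ∃ V' : Set X, IsOpen V' ∧ W ⊆ π '' V' ∧
    ∀ z ∈ W, closure V' ⊆ s.V z ∩ D} with hP
  have hex : ∀ W0 : Set B, IsOpen W0 → W0 ⊆ s.E → W0.Nonempty → ∃ W ∈ P, W ⊆ W0 ∧ W.Nonempty := by
    intro W0 hW0 hsub hne
    obtain ⟨z0, hz0⟩ := hne
    obtain ⟨W1, hW1, hz1, hW1E, hconst⟩ := s.loc_const z0 (hsub hz0)
    obtain ⟨x0, hx0, hx0z⟩ := s.mem_image z0 (hsub hz0)
    have hopen : IsOpen (s.V z0 ∩ π ⁻¹' (W0 ∩ W1)) :=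
      (s.isOpen_V z0 (hsub hz0)).inter ((hW0.inter hW1).preimage hc)
    obtain ⟨x, hx, hxD⟩ := hDd.inter_open_nonempty _ hopen ⟨x0, hx0, by
      simp only [mem_preimage, hx0z]; exact ⟨hz0, hz1⟩⟩
    have hopen2 : IsOpen ((s.V z0 ∩ π ⁻¹' (W0 ∩ W1)) ∩ D) := hopen.inter hD
    obtain ⟨V', hV', hxV', hcl⟩ : ∃ V' : Set X, IsOpen V' ∧ x ∈ V' ∧
        closure V' ⊆ (s.V z0 ∩ π ⁻¹' (W0 ∩ W1)) ∩ D := by
      have h1 := hopen2.mem_nhds ⟨hx, hxD⟩
      obtain ⟨t, ht, htc, hts⟩ := exists_mem_nhds_isClosed_subset h1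
      exact ⟨interior t, isOpen_interior, mem_interior_iff_mem_nhds.mpr ht,
        (closure_minimal interior_subset htc).trans hts⟩
    refine ⟨π '' V', ⟨ho V' hV', ?_, V', hV', Subset.rfl, ?_⟩, ?_, ⟨π x, x, hxV', rfl⟩⟩
    · rintro _ ⟨y, hy, rfl⟩
      exact hW1E (hcl (subset_closure hy)).1.2.2
    · rintro _ ⟨y, hy, rfl⟩ w hw
      have hy1 : π y ∈ W1 := (hcl (subset_closure hy)).1.2.2
      rw [hconst _ hy1]
      exact ⟨(hcl hw).1.1, (hcl hw).2⟩
    · rintro _ ⟨y, hy, rfl⟩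
      exact (hcl (subset_closure hy)).1.2.1
  obtain ⟨𝒲, h𝒲P, h𝒲d, h𝒲m⟩ := exists_maximal_disjoint P
  -- choose the sets
  have hch : ∀ W : Set B, ∃ V' : Set X, W ∈ P → (IsOpen V' ∧ W ⊆ π '' V' ∧
      ∀ z ∈ W, closure V' ⊆ s.V z ∩ D) := by
    intro W
    by_cases hW : W ∈ P
    · obtain ⟨_, _, V', h1⟩ := hW
      exact ⟨V', fun _ => h1⟩
    · exact ⟨∅, fun h => absurd h hW⟩
  choose F hF using hch
  set G : B → Set X := fun z => if h : ∃ W ∈ 𝒲, z ∈ W then F h.choose else ∅ with hG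
  have hGeq : ∀ W ∈ 𝒲, ∀ z ∈ W, G z = F W := by
    intro W hW z hz
    have h : ∃ W ∈ 𝒲, z ∈ W := ⟨W, hW, hz⟩
    have h1 : h.choose = W := by
      by_contra hne
      have := h𝒲d h.choose_spec.1 hW hne
      exact (Set.disjoint_left.mp this) h.choose_spec.2 hz
    simp only [hG, dif_pos h, h1]
  refine ⟨⟨⋃₀ 𝒲, G, isOpen_sUnion fun W hW => (h𝒲P hW).1, ?_, ?_, ?_, ?_⟩, ?_, ?_⟩
  · -- density
    refine s.dense_E.trans (closure_minimal ?_ isClosed_closure)
    by_contra hnot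
    obtain ⟨z, hzE, hz⟩ := Set.not_subset.mp hnot
    obtain ⟨W, hWP, hWsub, hWne⟩ := hex (s.E ∩ (closure (⋃₀ 𝒲))ᶜ)
      (s.isOpen_E.inter isClosed_closure.isOpen_compl) inter_subset_left ⟨z, hzE, hz⟩
    refine h𝒲m W hWP hWne ?_
    rw [Set.disjoint_left]
    intro y hy hy2
    exact (hWsub hy).2 (subset_closure hy2)
  · rintro z ⟨W, hW, hz⟩
    rw [hGeq W hW z hz]
    exact (hF W (h𝒲P hW)).1
  · rintro z ⟨W, hW, hz⟩
    rw [hGeq W hW z hz]
    exact (hF W (h𝒲P hW)).2.1 hz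
  · rintro z ⟨W, hW, hz⟩
    refine ⟨W, (h𝒲P hW).1, hz, subset_sUnion_of_mem hW, fun z' hz' => ?_⟩
    rw [hGeq W hW z hz, hGeq W hW z' hz']
  · rintro z ⟨W, hW, hz⟩
    exact (h𝒲P hW).2.1 hz
  · rintro z ⟨W, hW, hz⟩
    change closure (G z) ⊆ _
    rw [hGeq W hW z hz]
    exact (hF W (h𝒲P hW)).2.2 z hz

/-- A regular space which is mapped onto a Baire space by an open continuous map with compact
fibres is Baire. -/
theorem baire_of_open_map {X B : Type*} [TopologicalSpace X] [RegularSpace X]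
    [TopologicalSpace B] [BaireSpace B] {π : X → B} (hc : Continuous π) (ho : IsOpenMap π)
    (hK : ∀ z, IsCompact (π ⁻¹' {z})) : BaireSpace X := by
  refine ⟨fun D hD hDd => ?_⟩
  rw [dense_iff_inter_open]
  intro O hO hOne
  have hO' : IsOpen (π '' O) := ho O hO
  have s0 : ∃ s : Stage π (π '' O), s.V = fun _ => O :=
    ⟨⟨π '' O, fun _ => O, hO', subset_closure, fun _ _ => hO, fun z hz => hz,
      fun z hz => ⟨π '' O, hO', hz, Subset.rfl, fun _ _ => rfl⟩⟩, rfl⟩
  obtain ⟨s0, hs0⟩ := s0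
  choose nxt hnxt1 hnxt2 using fun (n : ℕ) (s : Stage π (π '' O)) =>
    step hc ho s (hD n) (hDd n)
  let s : ℕ → Stage π (π '' O) := fun n => Nat.rec s0 (fun n s => nxt n s) n
  have hs1 : ∀ n, (s (n + 1)).E ⊆ (s n).E := fun n => hnxt1 n (s n)
  have hs2 : ∀ n, ∀ z ∈ (s (n + 1)).E, closure ((s (n + 1)).V z) ⊆ (s n).V z ∩ D n :=
    fun n => hnxt2 n (s n)
  -- Baire property of the base
  have hdense : Dense (⋂ n, ((s n).E ∪ (closure (π '' O))ᶜ)) := by
    refine dense_iInter_of_isOpen (fun n => (s n).isOpen_E.union isClosed_closure.isOpen_compl) ?_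
    intro n x
    by_cases hx : x ∈ closure (π '' O)
    · exact closure_mono subset_union_left
        (closure_minimal (s n).dense_E isClosed_closure hx)
    · exact subset_closure (Or.inr hx)
  obtain ⟨z, hzO, hz⟩ := hdense.inter_open_nonempty _ hO' (hOne.image π)
  have hzE : ∀ n, z ∈ (s n).E := by
    intro n
    rcases mem_iInter.mp hz n with h | h
    · exact h
    · exact absurd (subset_closure hzO) h
  have hanti : ∀ n m, n ≤ m → (s m).V z ⊆ (s n).V z := by
    intro n m hnm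
    induction m, hnm using Nat.le_induction with
    | base => exact Subset.rfl
    | succ m _ ih => exact (subset_closure.trans ((hs2 m z (hzE (m + 1))).trans inter_subset_left)).trans ih
  have hne : (π ⁻¹' {z} ∩ ⋂ n, closure ((s n).V z)).Nonempty := by
    refine (hK z).inter_iInter_nonempty _ (fun _ => isClosed_closure) ?_
    intro u
    obtain ⟨N, hN⟩ := u.bddAbove
    obtain ⟨x, hx, hxz⟩ := (s N).mem_image z (hzE N)
    refine ⟨x, hxz, ?_⟩
    simp only [mem_iInter]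
    intro i hi
    exact subset_closure (hanti i N (hN hi) hx)
  obtain ⟨x, _, hx⟩ := hne
  refine ⟨x, ?_, ?_⟩
  · have h1 := (hs2 0 z (hzE 1) (mem_iInter.mp hx 1)).1
    have h2 : (s 0).V z = O := by
      change s0.V z = O
      rw [hs0]
    rwa [h2] at h1
  · rw [mem_iInter]
    intro n
    exact (hs2 n z (hzE (n + 1)) (mem_iInter.mp hx (n + 1))).2

/-- If `K` is a compact normal subgroup of a topological group `G` (no separation axiom) and
`G ⧸ K` is a Baire space, then `G` is a Baire space. -/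
theorem result {G : Type*} [Group G] [TopologicalSpace G] [IsTopologicalGroup G]
    (K : Subgroup G) [K.Normal] (hK : IsCompact (K : Set G)) (hB : BaireSpace (G ⧸ K)) :
    BaireSpace G := by
  refine baire_of_open_map (π := (QuotientGroup.mk : G → G ⧸ K)) continuous_quotient_mk'
    (QuotientGroup.isOpenMap_coe) ?_
  intro z
  obtain ⟨g, rfl⟩ := QuotientGroup.mk_surjective z
  have h1 : (QuotientGroup.mk ⁻¹' {(QuotientGroup.mk g : G ⧸ K)} : Set G) =
      (fun k => g * k) '' (K : Set G) := by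
    ext x
    simp only [mem_preimage, mem_singleton_iff, mem_image, SetLike.mem_coe]
    constructor
    · intro h
      refine ⟨g⁻¹ * x, QuotientGroup.eq.mp h.symm, by group⟩
    · rintro ⟨k, hk, rfl⟩
      refine (QuotientGroup.eq.mpr ?_).symm
      simpa using hk
  rw [h1]
  exact hK.image (continuous_const_mul g)

end Pool.Agent.Results.MP_0c5bac_gt.CompactKernel
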